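import Pool.Agent.W965.LU.Stms

/-! Project LU (helper965), part STR: iterated sparse pairs. -/

set_option autoImplicit false

namespace Pool.Agent.W959.LU.Str

open Pool.Agent.W965.LU Finset

/-- number of ordered pairs of colour `c` -/
def e (g : ℕ → ℕ → Bool) (c : Bool) (A B : Finset ℕ) : ℕ :=
  ∑ a ∈ A, (B.filter (fun y => g a y = c)).card

theorem e_eq (g : ℕ → ℕ → Bool) (c : Bool) (A B : Finset ℕ) :
    e g c A B = ∑ a ∈ A, ∑ b ∈ B, if g a b = c then 1 else 0 := by
  unfold e
  refine Finset.sum_congr rfl fun a _ => ?_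
  rw [Finset.card_filter]

theorem e_comm (g : ℕ → ℕ → Bool) (hg : ∀ a b, g a b = g b a) (c : Bool) (A B : Finset ℕ) :
    e g c A B = e g c B A := by
  rw [e_eq, e_eq, Finset.sum_comm]
  refine Finset.sum_congr rfl fun a _ => Finset.sum_congr rfl fun b _ => ?_
  rw [hg]

theorem e_union (g : ℕ → ℕ → Bool) (hg : ∀ a b, g a b = g b a) (c : Bool) {A B : Finset ℕ}
    (h : Disjoint A B) :
    e g c (A ∪ B) (A ∪ B) = e g c A A + e g c B B + 2 * e g c B A := by
  have h1 := e_comm g hg c A B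
  rw [e_eq, e_eq, e_eq, e_eq] at *
  rw [Finset.sum_union h]
  have h2 : ∀ a, (∑ b ∈ A ∪ B, if g a b = c then 1 else 0) =
      (∑ b ∈ A, if g a b = c then 1 else 0) + ∑ b ∈ B, if g a b = c then 1 else 0 :=
    fun a => Finset.sum_union h
  simp only [h2, Finset.sum_add_distrib]
  omega

/-- the structure built by the iteration -/
def Str (g : ℕ → ℕ → Bool) (H L : ℕ) (c : Bool) (i : ℕ) (Y : Finset ℕ) : Prop :=
  Y.card = 2 ^ i * L ∧ 2 ^ H * e g c Y Y ≤ (2 ^ (H - i) + 1) * Y.card ^ 2

theorem str_zero (g : ℕ → ℕ → Bool) (H L : ℕ) (c : Bool) {Z : Finset ℕ} (h : L ≤ Z.card) :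
    ∃ Y ⊆ Z, Str g H L c 0 Y := by
  obtain ⟨Y, hY, hc⟩ := Finset.exists_subset_card_eq h
  refine ⟨Y, hY, by rw [hc]; simp, ?_⟩
  have h1 : e g c Y Y ≤ Y.card ^ 2 := by
    unfold e
    calc ∑ a ∈ Y, (Y.filter (fun y => g a y = c)).card ≤ ∑ a ∈ Y, Y.card :=
          Finset.sum_le_sum fun a _ => Finset.card_filter_le _ _
      _ = Y.card ^ 2 := by rw [Finset.sum_const, smul_eq_mul, sq]
  rw [Nat.sub_zero]
  exact Nat.mul_le_mul (Nat.le_succ _) h1

theorem str_union (g : ℕ → ℕ → Bool) (hg : ∀ a b, g a b = g b a) (H L : ℕ) (c : Bool) (i : ℕ)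
    (hi : i + 1 ≤ H) {Y1 Y2 : Finset ℕ} (h1 : Str g H L c i Y1) (h2 : Str g H L c i Y2)
    (hd : Disjoint Y1 Y2)
    (hx : ∀ d ∈ Y2, 2 ^ H * (Y1.filter (fun y => g d y = c)).card ≤ Y1.card) :
    Str g H L c (i + 1) (Y1 ∪ Y2) := by
  have hc : (Y1 ∪ Y2).card = 2 * Y1.card := by
    rw [Finset.card_union_of_disjoint hd, h1.1, h2.1]; ring
  refine ⟨by rw [hc, h1.1]; ring, ?_⟩
  have h3 : 2 ^ H * e g c Y2 Y1 ≤ Y1.card * Y1.card := by
    unfold e
    rw [Finset.mul_sum]
    calc ∑ a ∈ Y2, 2 ^ H * (Y1.filter (fun y => g a y = c)).card ≤ ∑ a ∈ Y2, Y1.card :=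
          Finset.sum_le_sum hx
      _ = Y1.card * Y1.card := by rw [Finset.sum_const, smul_eq_mul, h1.1, h2.1]
  have h4 : 2 ^ (H - i) = 2 * 2 ^ (H - (i + 1)) := by
    rw [← pow_succ']
    congr 1
    omega
  have h5 := h1.2
  have h6 := h2.2
  have hc2 : Y2.card = Y1.card := by rw [h1.1, h2.1]
  rw [hc2] at h6
  rw [h4] at h5 h6
  rw [e_union g hg c hd, hc]
  generalize 2 ^ (H - (i + 1)) = P at *
  nlinarith

theorem claim (g : ℕ → ℕ → Bool) (H L Δ m : ℕ) (X : Finset ℕ) (hg : ∀ a b, g a b = g b a)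
    (hL : 1 ≤ L) (hΔ : 1 ≤ Δ) (hm : m ≤ 2 * Δ)
    (hP : ∀ Z ⊆ X, m ≤ Z.card → Pair g (2 ^ (H + 1)) Δ Z) :
    ∀ (n : ℕ) (idx : Bool → ℕ) (Z : Finset ℕ), idx true + idx false = n → (∀ c, idx c ≤ H) →
      Z ⊆ X → L * (2 * Δ) ^ n ≤ Z.card → ∃ Y ⊆ Z, ∃ c, Str g H L c (idx c) Y := by
  intro n
  induction n with
  | zero =>
    intro idx Z hn _ _ hZ
    have h0 : idx true = 0 := by omega
    obtain ⟨Y, hY, h⟩ := str_zero g H L true (Z := Z) (by simpa using hZ)
    exact ⟨Y, hY, true, h0 ▸ h⟩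
  | succ n ih =>
    intro idx Z hn hH hZX hZ
    have hpow : 1 ≤ (2 * Δ) ^ n := Nat.one_le_pow _ _ (by omega)
    have hLn : 1 ≤ L * (2 * Δ) ^ n := Nat.mul_pos hL hpow
    by_cases hz : ∃ c, idx c = 0
    · obtain ⟨c, hc⟩ := hz
      have hLZ : L ≤ Z.card := by
        refine le_trans ?_ hZ
        exact Nat.le_mul_of_pos_right _ (Nat.one_le_pow _ _ (by omega))
      obtain ⟨Y, hY, h⟩ := str_zero g H L c hLZ
      exact ⟨Y, hY, c, hc ▸ h⟩
    push Not at hz
    have hmZ : m ≤ Z.card := by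
      refine hm.trans (le_trans ?_ hZ)
      rw [pow_succ]
      calc 2 * Δ = 1 * (2 * Δ) := by ring
        _ ≤ (L * (2 * Δ) ^ n) * (2 * Δ) := Nat.mul_le_mul_right _ hLn
        _ = L * ((2 * Δ) ^ n * (2 * Δ)) := by ring
    obtain ⟨A, D, c, hA, hD, hAD, hcA, hcD, hsp⟩ := hP Z hZX hmZ
    have hbig : ∀ q : ℕ, Z.card ≤ Δ * q → 2 * (L * (2 * Δ) ^ n) ≤ q := by
      intro q hq
      have h1 : Δ * (2 * (L * (2 * Δ) ^ n)) ≤ Δ * q := by
        refine le_trans (le_of_eq ?_) (hZ.trans hq)
        rw [pow_succ]; ring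
      exact Nat.le_of_mul_le_mul_left h1 (by omega)
    have hA2 := hbig _ hcA
    have hD2 := hbig _ hcD
    set idx' : Bool → ℕ := Function.update idx c (idx c - 1) with hidx
    have hsum : idx' true + idx' false = n := by
      have ht := hz true
      have hf := hz false
      cases c
      · simp only [hidx, Function.update_self, ne_eq, reduceCtorEq, not_false_eq_true,
          Function.update_of_ne]
        omega
      · simp only [hidx, Function.update_self, ne_eq, reduceCtorEq, not_false_eq_true,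
          Function.update_of_ne]
        omega
    have hc' : idx' c = idx c - 1 := by simp [hidx]
    have hcne : ∀ c', c' ≠ c → idx' c' = idx c' := fun c' h => by simp [hidx, h]
    have hH' : ∀ c', idx' c' ≤ H := by
      intro c'
      by_cases h : c' = c
      · rw [h, hc']
        exact (Nat.sub_le _ _).trans (hH c)
      · rw [hcne c' h]; exact hH c'
    obtain ⟨Y1, hY1, c1, hS1⟩ := ih idx' A hsum hH' (hA.trans hZX) (by omega)
    by_cases h1 : c1 = c
    swap
    · exact ⟨Y1, hY1.trans hA, c1, by rw [hcne c1 h1] at hS1; exact hS1⟩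
    subst h1
    rw [hc'] at hS1
    have hY1pos : 0 < Y1.card := by
      rw [hS1.1]; positivity
    set D' := D.filter (fun d => 2 ^ H * (Y1.filter (fun y => g d y = c1)).card ≤ Y1.card) with hD'
    have hDD : D.card ≤ 2 * D'.card := by
      have hsplit : D'.card + (D \ D').card = D.card := by
        rw [add_comm]
        exact Finset.card_sdiff_add_card_eq_card (Finset.filter_subset _ _)
      have hdc : (D \ D').card * Y1.card ≤ 2 ^ H * e g c1 D Y1 := by
        unfold e
        rw [Finset.mul_sum]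
        calc (D \ D').card * Y1.card = ∑ d ∈ D \ D', Y1.card := by
              rw [Finset.sum_const, smul_eq_mul]
          _ ≤ ∑ d ∈ D \ D', 2 ^ H * (Y1.filter (fun y => g d y = c1)).card := by
              refine Finset.sum_le_sum fun d hd => ?_
              rw [Finset.mem_sdiff, hD', Finset.mem_filter] at hd
              by_contra hlt
              push Not at hlt
              exact hd.2 ⟨hd.1, hlt.le⟩
          _ ≤ ∑ d ∈ D, 2 ^ H * (Y1.filter (fun y => g d y = c1)).card :=
              Finset.sum_le_sum_of_subset Finset.sdiff_subset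
      rw [e_comm g hg] at hdc
      have h2 : 2 * (2 ^ H * e g c1 Y1 D) ≤ Y1.card * D.card := by
        unfold e
        rw [Finset.mul_sum, Finset.mul_sum]
        calc ∑ a ∈ Y1, 2 * (2 ^ H * (D.filter (fun y => g a y = c1)).card) ≤ ∑ a ∈ Y1, D.card := by
              refine Finset.sum_le_sum fun a ha => ?_
              have := hsp a (hY1 ha)
              rw [pow_succ] at this
              calc 2 * (2 ^ H * (D.filter (fun y => g a y = c1)).card) =
                    2 ^ H * 2 * (D.filter (fun y => g a y = c1)).card := by ring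
                _ ≤ D.card := this
          _ = Y1.card * D.card := by rw [Finset.sum_const, smul_eq_mul]
      have h3 : (2 * (D \ D').card) * Y1.card ≤ D.card * Y1.card := by
        calc (2 * (D \ D').card) * Y1.card = 2 * ((D \ D').card * Y1.card) := by ring
          _ ≤ 2 * (2 ^ H * e g c1 Y1 D) := Nat.mul_le_mul_left _ hdc
          _ ≤ Y1.card * D.card := h2
          _ = D.card * Y1.card := by ring
      have h4 := Nat.le_of_mul_le_mul_right h3 hY1pos
      omega
    obtain ⟨Y2, hY2, c2, hS2⟩ := ih idx' D' hsum hH'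
      ((Finset.filter_subset _ _).trans (hD.trans hZX)) (by omega)
    have hY2D : Y2 ⊆ D := hY2.trans (Finset.filter_subset _ _)
    by_cases h2 : c2 = c1
    swap
    · exact ⟨Y2, hY2D.trans hD, c2, by rw [hcne c2 h2] at hS2; exact hS2⟩
    subst h2
    rw [hc'] at hS2
    refine ⟨Y1 ∪ Y2, Finset.union_subset (hY1.trans hA) (hY2D.trans hD), c2, ?_⟩
    have hpos := hz c2
    have hle := hH c2
    have h3 := str_union g hg H L c2 (idx c2 - 1) (by omega) hS1 hS2
      (Finset.disjoint_of_subset_left hY1 (Finset.disjoint_of_subset_right hY2D hAD))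
      (fun d hd => (Finset.mem_filter.1 (hY2 hd)).2)
    rwa [Nat.sub_add_cancel (by omega)] at h3

theorem main : S_STR := by
  intro g H L Δ m X hg hL hΔ hm hP hX
  obtain ⟨Y, hY, c, hS⟩ := claim g H L Δ m X hg hL hΔ hm hP (2 * H) (fun _ => H) X
    (by show H + H = 2 * H; ring) (fun _ => le_rfl) (Finset.Subset.refl _) hX
  refine ⟨Y, hY, c, hS.1, ?_⟩
  have := hS.2
  simpa [e] using this

end Pool.Agent.W959.LU.Str
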